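import Pool.Agent.Q80.KT.Stm

/-!
# The law of the ball of the Kesten tree

`t_KLAW`: the probability that the ball of radius `r` of the Kesten tree is isomorphic to `(F, u)` is `Kval F u r`.
-/

open Finset MeasureTheory Filter Topology
open scoped Classical ENNReal NNReal

noncomputable section

namespace Q259.KT.KLAW

open Pool.Agent.Q80.KT

/-- a witness for `BallIso` -/
def Wit {k : ℕ} (F : SimpleGraph (Fin k)) (u : Fin k) (r : ℕ) (X : List ℕ → ℕ) (φ : Fin k → List ℕ) : Prop :=
  Function.Injective φ ∧ φ u = [] ∧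
    (∀ w, (∃ a, φ a = w) ↔ ((kTree X).Reachable [] w ∧ (kTree X).dist [] w ≤ r)) ∧
    ∀ a b, F.Adj a b ↔ (kTree X).Adj (φ a) (φ b)

/-- the event of a labelling -/
def Ev {k : ℕ} (F : SimpleGraph (Fin k)) (u : Fin k) (r : ℕ) (φ : Fin k → List ℕ) : Set (List ℕ → ℕ) :=
  {X | ∀ a, F.dist u a < r → kids X (φ a) = nch F u a}

lemma meas_Ev {k : ℕ} (F : SimpleGraph (Fin k)) (u : Fin k) (r : ℕ) (φ : Fin k → List ℕ) :
    MeasurableSet (Ev F u r φ) := by
  have h : Ev F u r φ = ⋂ a : Fin k, {X | F.dist u a < r → kids X (φ a) = nch F u a} := by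
    ext X
    simp [Ev]
  rw [h]
  refine MeasurableSet.iInter fun a => ?_
  by_cases ha : F.dist u a < r
  · have h2 : {X : List ℕ → ℕ | F.dist u a < r → kids X (φ a) = nch F u a} =
        (fun X : List ℕ → ℕ => X (φ a)) ⁻¹' {m | m + (if (∀ i ∈ φ a, i = 0) then 1 else 0) = nch F u a} := by
      ext X
      simp only [Set.mem_setOf_eq, Set.mem_preimage, kids]
      constructor
      · intro h; exact h ha
      · intro h _; exact h
    rw [h2]
    exact (measurable_pi_apply (φ a)) (MeasurableSet.of_discrete)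
  · have h2 : {X : List ℕ → ℕ | F.dist u a < r → kids X (φ a) = nch F u a} = Set.univ := by
      ext X
      simp only [Set.mem_setOf_eq, Set.mem_univ, iff_true]
      intro h; exact absurd h ha
    rw [h2]
    exact MeasurableSet.univ

/-- automorphisms of the rooted graph -/
def Aut {k : ℕ} (F : SimpleGraph (Fin k)) (u : Fin k) : Finset (Equiv.Perm (Fin k)) :=
  univ.filter fun σ : Equiv.Perm (Fin k) => σ u = u ∧ ∀ a b, F.Adj (σ a) (σ b) ↔ F.Adj a b

lemma aut_pos {k : ℕ} (F : SimpleGraph (Fin k)) (u : Fin k) : 0 < autC F u := by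
  unfold autC
  refine Finset.card_pos.mpr ⟨1, ?_⟩
  simp

lemma wit_comp {k : ℕ} (F : SimpleGraph (Fin k)) (u : Fin k) (r : ℕ) (X : List ℕ → ℕ) (φ : Fin k → List ℕ)
    (h : Wit F u r X φ) (σ : Equiv.Perm (Fin k)) (hσ : σ ∈ Aut F u) : Wit F u r X (φ ∘ σ) := by
  obtain ⟨h1, h2, h3, h4⟩ := h
  simp only [Aut, Finset.mem_filter, Finset.mem_univ, true_and] at hσ
  refine ⟨h1.comp σ.injective, ?_, ?_, ?_⟩
  · simp [hσ.1, h2]
  · intro w
    rw [← h3 w]
    constructor
    · rintro ⟨a, ha⟩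
      exact ⟨σ a, ha⟩
    · rintro ⟨a, ha⟩
      exact ⟨σ.symm a, by simpa using ha⟩
  · intro a b
    rw [← hσ.2 a b, h4]
    rfl

lemma wit_two {k : ℕ} (F : SimpleGraph (Fin k)) (u : Fin k) (r : ℕ) (X : List ℕ → ℕ) (φ ψ : Fin k → List ℕ)
    (h : Wit F u r X φ) (h' : Wit F u r X ψ) : ∃ σ ∈ Aut F u, φ ∘ σ = ψ := by
  obtain ⟨h1, h2, h3, h4⟩ := h
  obtain ⟨g1, g2, g3, g4⟩ := h'
  have hex : ∀ a, ∃ b, φ b = ψ a := fun a => (h3 (ψ a)).2 ((g3 (ψ a)).1 ⟨a, rfl⟩)
  choose s hs using hex
  have hinj : Function.Injective s := by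
    intro a b hab
    apply g1
    rw [← hs a, ← hs b, hab]
  have hbij : Function.Bijective s := Finite.injective_iff_bijective.mp hinj
  refine ⟨Equiv.ofBijective s hbij, ?_, ?_⟩
  · simp only [Aut, Finset.mem_filter, Finset.mem_univ, true_and, Equiv.ofBijective_apply]
    refine ⟨?_, ?_⟩
    · apply h1
      rw [hs, g2, h2]
    · intro a b
      rw [h4, hs, hs, g4]
  · funext a
    simp [hs]

lemma card_wit {k : ℕ} (F : SimpleGraph (Fin k)) (u : Fin k) (r : ℕ) (X : List ℕ → ℕ)
    (L : Finset (Fin k → List ℕ)) (hL : ∀ φ, (φ ∈ L ∧ X ∈ Ev F u r φ) ↔ Wit F u r X φ) :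
    (L.filter fun φ => X ∈ Ev F u r φ).card = if BallIso F u (kTree X) [] r then autC F u else 0 := by
  split_ifs with hB
  · obtain ⟨φ, hφ⟩ := hB
    have hφ : Wit F u r X φ := hφ
    have himg : (L.filter fun φ => X ∈ Ev F u r φ) = (Aut F u).image fun σ : Equiv.Perm (Fin k) => φ ∘ σ := by
      ext ψ
      rw [Finset.mem_filter, hL, Finset.mem_image]
      constructor
      · intro h
        obtain ⟨σ, h1, h2⟩ := wit_two F u r X φ ψ hφ h
        exact ⟨σ, h1, h2⟩
      · rintro ⟨σ, h1, h2⟩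
        rw [← h2]
        exact wit_comp F u r X φ hφ σ h1
    rw [himg, Finset.card_image_of_injective]
    · rfl
    · intro σ τ h
      ext a
      have := congrFun h a
      simp only [Function.comp] at this
      exact congrArg _ (hφ.1 this)
  · rw [Finset.card_eq_zero, Finset.filter_eq_empty_iff]
    intro φ hφ hE
    exact hB ⟨φ, (hL φ).1 ⟨hφ, hE⟩⟩

theorem t_KLAW (h1 : S_WIT) (h2 : S_KT0) (h3 : S_KPR) (h4 : S_COUNT) : S_KLAW := by
  intro k F u r
  by_cases hT : F.IsTree ∧ ∀ a, F.dist u a ≤ r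
  swap
  · have he : {X | BallIso F u (kTree X) [] r} = ∅ := by
      ext X
      simp only [Set.mem_setOf_eq, Set.mem_empty_iff_false, iff_false]
      intro h
      exact hT (h2 k F u r X h)
    rw [he, Kval, if_neg hT]
    simp
  obtain ⟨L, hL, hsum⟩ := h4 k F u r hT.1 hT.2
  have hW : ∀ X φ, (φ ∈ L ∧ X ∈ Ev F u r φ) ↔ Wit F u r X φ := by
    intro X φ
    rw [hL]
    exact (h1 k F u r X φ hT.1 hT.2).symm
  haveI : IsProbabilityMeasure kLaw := by
    unfold kLaw
    infer_instance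
  -- the set
  have hBset : {X | BallIso F u (kTree X) [] r} = ⋃ φ ∈ L, Ev F u r φ := by
    ext X
    simp only [Set.mem_setOf_eq, Set.mem_iUnion, exists_prop]
    constructor
    · rintro ⟨φ, hφ⟩
      exact ⟨φ, (hW X φ).2 hφ⟩
    · rintro ⟨φ, hφ⟩
      exact ⟨φ, (hW X φ).1 hφ⟩
  have hBm : MeasurableSet {X | BallIso F u (kTree X) [] r} := by
    rw [hBset]
    exact Finset.measurableSet_biUnion L fun φ _ => meas_Ev F u r φ
  have key : (autC F u : ℝ≥0∞) * kLaw {X | BallIso F u (kTree X) [] r} = ∑ φ ∈ L, kLaw (Ev F u r φ) := by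
    have e1 : ∀ φ, kLaw (Ev F u r φ) = ∫⁻ X, (Ev F u r φ).indicator (fun _ => (1 : ℝ≥0∞)) X ∂kLaw := by
      intro φ
      rw [lintegral_indicator_const (meas_Ev F u r φ)]
      simp
    have e2 : kLaw {X | BallIso F u (kTree X) [] r} =
        ∫⁻ X, {X | BallIso F u (kTree X) [] r}.indicator (fun _ => (1 : ℝ≥0∞)) X ∂kLaw := by
      rw [lintegral_indicator_const hBm]
      simp
    rw [e2, ← lintegral_const_mul _ (measurable_const.indicator hBm)]
    rw [Finset.sum_congr rfl fun φ _ => e1 φ]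
    rw [← lintegral_finsetSum _ fun φ _ => measurable_const.indicator (meas_Ev F u r φ)]
    refine lintegral_congr fun X => ?_
    have hc := card_wit F u r X L (hW X)
    have : ∑ φ ∈ L, (Ev F u r φ).indicator (fun _ => (1 : ℝ≥0∞)) X =
        ((L.filter fun φ => X ∈ Ev F u r φ).card : ℝ≥0∞) := by
      rw [Finset.card_filter]
      push_cast
      refine Finset.sum_congr rfl fun φ _ => ?_
      simp only [Set.indicator_apply]
    rw [this, hc]
    by_cases hB : BallIso F u (kTree X) [] r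
    · simp [hB]
    · simp [hB]
  have key2 : (autC F u : ℝ) * (kLaw {X | BallIso F u (kTree X) [] r}).toReal =
      ∑ φ ∈ L, (kLaw (Ev F u r φ)).toReal := by
    have := congrArg ENNReal.toReal key
    rw [ENNReal.toReal_mul, ENNReal.toReal_natCast, ENNReal.toReal_sum] at this
    · exact this
    · intro φ _
      exact measure_ne_top _ _
  have key3 : ∑ φ ∈ L, (kLaw (Ev F u r φ)).toReal =
      ((univ.filter fun a => F.dist u a = r).card : ℝ) *
        Real.exp (-((univ.filter fun a => F.dist u a < r).card : ℝ)) := by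
    have e3 : ∀ φ ∈ L, (kLaw (Ev F u r φ)).toReal =
        (∏ a ∈ univ.filter (fun a => F.dist u a < r), (Real.exp (-1) / ((nch F u a).factorial : ℝ))) *
        ∏ a ∈ univ.filter (fun a => F.dist u a < r), (if (∀ i ∈ φ a, i = 0) then (nch F u a : ℝ) else 1) := by
      intro φ hφ
      rw [← Finset.prod_mul_distrib]
      exact h3 k F u r φ ((hL φ).1 hφ).2.1
    rw [Finset.sum_congr rfl e3, ← Finset.mul_sum, hsum]
    rw [mul_left_comm, ← Finset.prod_mul_distrib]
    congr 1
    rw [Finset.prod_congr rfl (g := fun _ => Real.exp (-1))]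
    · rw [Finset.prod_const, ← Real.exp_nat_mul]
      congr 1
      ring
    · intro a _
      have : ((nch F u a).factorial : ℝ) ≠ 0 := by exact_mod_cast Nat.factorial_ne_zero _
      field_simp
  have hpos : (0 : ℝ) < autC F u := by exact_mod_cast aut_pos F u
  rw [Kval, if_pos hT, eq_div_iff hpos.ne', mul_comm, key2, key3]

end Q259.KT.KLAW
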